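import Mathlib

/-!
# Power sums of the roots of a monic polynomial, through logarithmic derivatives (helper951)
-/

set_option autoImplicit false

namespace Pool.Agent.Y951.WP

open Polynomial Finset

section

variable {F : Type*} [Field F]

/-- the reversed polynomial as a power series -/
noncomputable def rv (h : F[X]) : PowerSeries F := (h.reverse : PowerSeries F)

/-- the logarithmic derivative of the reversed polynomial -/
noncomputable def lg (h : F[X]) : PowerSeries F := (PowerSeries.derivative F (rv h)) * (rv h)⁻¹

lemma rv_mul (g h : F[X]) : rv (g * h) = rv g * rv h := by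
  unfold rv
  rw [reverse_mul_of_domain, Polynomial.coe_mul]

lemma rv_const {h : F[X]} (hh : h.Monic) : PowerSeries.constantCoeff (rv h) = 1 := by
  unfold rv
  rw [Polynomial.constantCoeff_coe, coeff_zero_reverse, hh]

lemma rv_ne {h : F[X]} (hh : h.Monic) : PowerSeries.constantCoeff (rv h) ≠ 0 := by
  rw [rv_const hh]
  exact one_ne_zero

lemma rv_inv {h : F[X]} (hh : h.Monic) : rv h * (rv h)⁻¹ = 1 := PowerSeries.mul_inv_cancel _ (rv_ne hh)

lemma lg_mul {g h : F[X]} (hg : g.Monic) (hh : h.Monic) : lg (g * h) = lg g + lg h := by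
  have h1 := rv_inv hg
  have h2 := rv_inv hh
  have h3 := rv_inv (hg.mul hh)
  have h4 : (rv (g * h))⁻¹ = (rv g)⁻¹ * (rv h)⁻¹ := by
    rw [rv_mul] at h3 ⊢
    rw [PowerSeries.mul_inv_rev, mul_comm]
  unfold lg
  rw [h4, rv_mul, Derivation.leibniz, smul_eq_mul, smul_eq_mul]
  calc (rv g * PowerSeries.derivative F (rv h) + rv h * PowerSeries.derivative F (rv g)) *
        ((rv g)⁻¹ * (rv h)⁻¹) =
        (rv g * (rv g)⁻¹) * (PowerSeries.derivative F (rv h) * (rv h)⁻¹) +
          (rv h * (rv h)⁻¹) * (PowerSeries.derivative F (rv g) * (rv g)⁻¹) := by ring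
    _ = _ := by rw [h1, h2]; ring

/-- the sum of the values of `f` at the roots of `h` -/
noncomputable def T (f h : F[X]) : F :=
  f.coeff 0 * (h.natDegree : F) - ∑ j ∈ range f.natDegree, f.coeff (j + 1) * PowerSeries.coeff j (lg h)

lemma T_mul (f : F[X]) {g h : F[X]} (hg : g.Monic) (hh : h.Monic) :
    T f (g * h) = T f g + T f h := by
  unfold T
  rw [lg_mul hg hh, hg.natDegree_mul hh]
  simp only [map_add, mul_add, sum_add_distrib, Nat.cast_add]
  ring

lemma T_one (f : F[X]) : T f 1 = 0 := by
  have h1 : T f (1 * 1) = T f 1 + T f 1 := T_mul f monic_one monic_one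
  rw [one_mul] at h1
  exact left_eq_add.1 h1

lemma T_lin (f : F[X]) (α : F) : T f (X - C α) = f.eval α := by
  have h1 : rv (X - C α) = 1 - PowerSeries.C α * PowerSeries.X := by
    unfold rv
    have h2 : (X - C α : F[X]).reverse = 1 - C α * X := by
      ext n
      rw [coeff_reverse, natDegree_X_sub_C]
      rcases Nat.lt_or_ge 1 n with hn | hn
      · rw [revAt_eq_self_of_lt hn, coeff_sub, coeff_sub, coeff_X, coeff_C, coeff_one, coeff_C_mul,
          coeff_X, if_neg (by omega), if_neg (by omega)]
        simp
        omega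
      · rw [revAt_le hn]
        interval_cases n
        · simp
        · simp [coeff_one]
    rw [h2]
    simp
  have h3 : ∀ j : ℕ, PowerSeries.coeff j (lg (X - C α)) = - α ^ (j + 1) := by
    have h4 : lg (X - C α) = - PowerSeries.C α * PowerSeries.mk (fun j => α ^ j) := by
      have h5 : rv (X - C α) * PowerSeries.mk (fun j => α ^ j) = 1 := by
        rw [h1]
        ext n
        rw [sub_mul, one_mul, map_sub, mul_assoc, PowerSeries.coeff_C_mul]
        cases n with
        | zero => simp
        | succ n =>
          rw [mul_comm PowerSeries.X, PowerSeries.coeff_succ_mul_X, PowerSeries.coeff_mk,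
            PowerSeries.coeff_mk, PowerSeries.coeff_one, if_neg (by omega), pow_succ]
          ring
      have h6 : (rv (X - C α))⁻¹ = PowerSeries.mk (fun j => α ^ j) := by
        rw [PowerSeries.inv_eq_iff_mul_eq_one (rv_ne (monic_X_sub_C α)), mul_comm]
        exact h5
      have h7 : PowerSeries.derivative F (rv (X - C α)) = - PowerSeries.C α := by
        rw [h1]
        ext n
        rw [PowerSeries.coeff_derivative, map_sub, PowerSeries.coeff_one, if_neg (by omega),
          PowerSeries.coeff_C_mul, PowerSeries.coeff_X, map_neg, PowerSeries.coeff_C]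
        split_ifs with h8 h9 h9
        · subst h9
          simp
        · omega
        · omega
        · simp
      unfold lg
      rw [h6, h7]
    intro j
    rw [h4, neg_mul, map_neg, PowerSeries.coeff_C_mul, PowerSeries.coeff_mk, pow_succ]
    ring
  unfold T
  rw [natDegree_X_sub_C, Nat.cast_one, mul_one, eval_eq_sum_range, sum_range_succ']
  simp only [h3, mul_neg, sum_neg_distrib, pow_zero, mul_one]
  ring

end

section

variable {F : Type*} [Field F] {K : Type*} [Field K] (φ : F →+* K)

lemma rv_map (h : F[X]) : rv (h.map φ) = PowerSeries.map φ (rv h) := by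
  unfold rv
  unfold reverse
  rw [natDegree_map, reflect_map, Polynomial.polynomial_map_coe]

lemma lg_map {h : F[X]} (hh : h.Monic) : lg (h.map φ) = PowerSeries.map φ (lg h) := by
  have h1 : PowerSeries.map φ (rv h) * PowerSeries.map φ ((rv h)⁻¹) = 1 := by
    rw [← map_mul, rv_inv hh, map_one]
  have h2 : (rv (h.map φ))⁻¹ = PowerSeries.map φ ((rv h)⁻¹) := by
    rw [PowerSeries.inv_eq_iff_mul_eq_one (rv_ne (hh.map φ)), mul_comm, rv_map]
    exact h1
  unfold lg
  rw [h2, rv_map, map_mul]
  congr 1
  ext n
  rw [PowerSeries.coeff_derivative, PowerSeries.coeff_map, PowerSeries.coeff_map,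
    PowerSeries.coeff_derivative, map_mul, map_add, map_natCast, map_one]

lemma T_map (f : F[X]) {h : F[X]} (hh : h.Monic) : T (f.map φ) (h.map φ) = φ (T f h) := by
  unfold T
  rw [lg_map φ hh, natDegree_map, natDegree_map]
  simp only [coeff_map, PowerSeries.coeff_map, map_sub, map_mul, map_natCast, map_sum]

lemma T_prod (f : F[X]) (s : Multiset F) :
    T f ((s.map (fun α => X - C α)).prod) = (s.map (fun α => f.eval α)).sum := by
  induction s using Multiset.induction_on with
  | empty => simp [T_one]
  | cons a s ih =>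
    rw [Multiset.map_cons, Multiset.prod_cons, Multiset.map_cons, Multiset.sum_cons,
      T_mul f (monic_X_sub_C a) (monic_multisetProd_X_sub_C s), ih, T_lin]

lemma T_roots (f : F[X]) {h : F[X]} (hh : h.Monic) :
    φ (T f h) = T (f.map φ) (h.map φ) := (T_map φ f hh).symm

/-- **`T f h` is the sum of the values of `f` at the roots of `h`** -/
theorem T_aroots [Algebra F K] [IsAlgClosed K] (f : F[X]) {h : F[X]} (hh : h.Monic) :
    algebraMap F K (T f h) = ((h.aroots K).map (fun z => aeval z f)).sum := by
  have h1 : (h.map (algebraMap F K)).Splits := IsAlgClosed.splits _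
  have h2 : h.map (algebraMap F K) = ((h.aroots K).map (fun α => X - C α)).prod :=
    h1.eq_prod_roots_of_monic (hh.map _)
  rw [← T_map (algebraMap F K) f hh]
  conv_lhs => rw [h2]
  rw [T_prod]
  simp only [eval_map_algebraMap]

end

section

variable {F : Type*} [Field F]

lemma smul_T (s : F) (hs : s ≠ 0) (f h : F[X]) : T (C s * f) h = s * T f h := by
  unfold T
  rw [natDegree_C_mul hs]
  simp only [coeff_C_mul, mul_sub, mul_sum, mul_assoc]

/-- the effect of changing one coefficient -/
theorem T_shift (f : F[X]) (hk : 1 ≤ f.natDegree) {h : F[X]} (hh : h.Monic)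
    (hn : f.natDegree ≤ h.natDegree) (s : F) :
    (h + C s * X ^ (h.natDegree - f.natDegree)).Monic ∧
    (h + C s * X ^ (h.natDegree - f.natDegree)).natDegree = h.natDegree ∧
    T f (h + C s * X ^ (h.natDegree - f.natDegree)) =
      T f h - f.leadingCoeff * (f.natDegree : F) * s := by
  set k := f.natDegree with hkdef
  set n := h.natDegree with hndef
  have hdeg : (C s * X ^ (n - k)).degree < h.degree := by
    refine (degree_C_mul_X_pow_le _ _).trans_lt ?_
    rw [degree_eq_natDegree hh.ne_zero, ← hndef]
    exact_mod_cast (by omega : n - k < n)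
  have hmon : (h + C s * X ^ (n - k)).Monic := hh.add_of_left hdeg
  have hnd : (h + C s * X ^ (n - k)).natDegree = n := by
    rw [natDegree_add_eq_left_of_degree_lt hdeg]
  refine ⟨hmon, hnd, ?_⟩
  set h' := h + C s * X ^ (n - k) with hh'
  have hrv : rv h' = rv h + PowerSeries.C s * PowerSeries.X ^ k := by
    unfold rv
    have h1 : h'.reverse = h.reverse + C s * X ^ k := by
      unfold reverse
      rw [hnd, hh', reflect_add, reflect_C_mul_X_pow, revAt_le (by omega), ← hndef]
      congr 3
      omega
    rw [h1]
    simp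
  have hd : lg h' - lg h = PowerSeries.X ^ (k - 1) *
      ((PowerSeries.C (s * k) * rv h - PowerSeries.C s * PowerSeries.X * PowerSeries.derivative F (rv h)) *
        ((rv h)⁻¹ * (rv h')⁻¹)) := by
    have h1 := rv_inv hh
    have h2 := rv_inv hmon
    have h3 : PowerSeries.derivative F (rv h') = PowerSeries.derivative F (rv h) +
        PowerSeries.C (s * k) * PowerSeries.X ^ (k - 1) := by
      rw [hrv, map_add]
      congr 1
      rw [Derivation.leibniz, smul_eq_mul, smul_eq_mul, Derivation.leibniz_pow]
      have h4 : PowerSeries.derivative F (PowerSeries.C s) = 0 := PowerSeries.derivative_C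
      rw [h4, mul_zero, add_zero, PowerSeries.derivative_X, smul_eq_mul, mul_one, nsmul_eq_mul,
        map_mul, map_natCast]
      ring
    have h5 : PowerSeries.X ^ k = PowerSeries.X ^ (k - 1) * (PowerSeries.X : PowerSeries F) := by
      rw [← pow_succ]
      congr 1
      omega
    unfold lg
    rw [h3]
    have h6 : (PowerSeries.derivative F (rv h) + PowerSeries.C (s * k) * PowerSeries.X ^ (k - 1)) *
        (rv h')⁻¹ - PowerSeries.derivative F (rv h) * (rv h)⁻¹ =
        ((PowerSeries.derivative F (rv h) + PowerSeries.C (s * k) * PowerSeries.X ^ (k - 1)) * rv h -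
          PowerSeries.derivative F (rv h) * rv h') * ((rv h)⁻¹ * (rv h')⁻¹) := by
      calc _ = (PowerSeries.derivative F (rv h) + PowerSeries.C (s * k) * PowerSeries.X ^ (k - 1)) *
            (rv h')⁻¹ * (rv h * (rv h)⁻¹) - PowerSeries.derivative F (rv h) * (rv h)⁻¹ *
            (rv h' * (rv h')⁻¹) := by rw [h1, h2, mul_one, mul_one]
        _ = _ := by ring
    rw [h6, hrv, h5]
    ring
  have hcoef : ∀ j < k, PowerSeries.coeff j (lg h') = PowerSeries.coeff j (lg h) +
      (if j = k - 1 then s * k else 0) := by
    intro j hj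
    have h1 : lg h' = lg h + (lg h' - lg h) := by ring
    rw [h1, map_add, hd, PowerSeries.coeff_X_pow_mul']
    congr 1
    by_cases h2 : j = k - 1
    · rw [if_pos (by omega), if_pos h2, h2, Nat.sub_self, PowerSeries.coeff_zero_eq_constantCoeff]
      simp only [map_mul, map_sub, PowerSeries.constantCoeff_C, PowerSeries.constantCoeff_X,
        PowerSeries.constantCoeff_inv, rv_const hh, rv_const hmon]
      simp
    · rw [if_neg (by omega), if_neg h2]
  unfold T
  rw [hnd, ← hndef, ← hkdef, sum_congr rfl fun j hj => by rw [hcoef j (mem_range.1 hj)]]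
  simp only [mul_add, sum_add_distrib, mul_ite, mul_zero]
  rw [sum_ite_eq', if_pos (mem_range.2 (by omega))]
  have h1 : k - 1 + 1 = f.natDegree := by omega
  rw [h1]
  unfold leadingCoeff
  ring

end

end Pool.Agent.Y951.WP
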