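import Pool.Agent.H498R2.KlField
import Pool.Agent.Y951.WP.Lg

/-!
# The `L`-function of `ψ (f x)` for a polynomial `f` (helper951)
-/

set_option autoImplicit false
set_option linter.all false

namespace Pool.Agent.Y951.WP

open Polynomial Finset IntermediateField
open Pool.Agent.H341R2.Sharp Pool.Agent.H498R2.Kl

section Trace

variable {F E : Type*} [Field F] [Field E] [Algebra F E] [FiniteDimensional F E]
  [Algebra.IsSeparable F E]

theorem trace_genP (x : E) (f : F[X]) :
    Algebra.trace F F⟮x⟯ (aeval (AdjoinSimple.gen F x) f) = T f (minpoly F x) := by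
  classical
  let Ω := AlgebraicClosure F
  have hx : IsIntegral F x := Algebra.IsIntegral.isIntegral x
  have : Algebra.IsSeparable F F⟮x⟯ := Algebra.isSeparable_tower_bot_of_isSeparable F F⟮x⟯ E
  apply (algebraMap F Ω).injective
  rw [trace_eq_sum_embeddings (E := Ω), T_aroots f (minpoly.monic hx)]
  rw [← sum_emb x (fun z => aeval z f)]
  refine sum_congr rfl fun σ _ => ?_
  exact (aeval_algHom_apply σ _ f).symm

theorem trace_P (x : E) (f : F[X]) :
    Algebra.trace F E (aeval x f) =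
      (Module.finrank F E / (minpoly F x).natDegree) • T f (minpoly F x) := by
  have h1 : aeval x f = algebraMap F⟮x⟯ E (aeval (AdjoinSimple.gen F x) f) := by
    rw [← aeval_algebraMap_apply, AdjoinSimple.algebraMap_gen]
  rw [h1, ← Algebra.trace_trace (S := F⟮x⟯), Algebra.trace_algebraMap, map_nsmul,
    trace_genP x f, (finrank_div x).1]

end Trace

section Lam

variable {F : Type*} [Field F] [Fintype F] [DecidableEq F]

/-- the multiplicative function on monic polynomials attached to the sum -/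
noncomputable def lamP (ψ : AddChar F ℂ) (f : F[X]) (h : F[X]) : ℂ := ψ (T f h)

theorem lamP_mult (ψ : AddChar F ℂ) (f : F[X]) : Mult (lamP ψ f) := by
  constructor
  · unfold lamP
    rw [T_one]
    simp
  · intro g h hg hh
    unfold lamP
    rw [T_mul f hg hh, AddChar.map_add_eq_mul]

theorem TP_eq_sum {E : Type*} [Field E] [Fintype E] [DecidableEq E] [Algebra F E]
    (ψ : AddChar F ℂ) (f : F[X]) :
    TG (lamP ψ f) (Module.finrank F E) = ∑ x : E, ψ (Algebra.trace F E (aeval x f)) := by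
  classical
  set m := Module.finrank F E with hm
  have hm0 : 0 < m := Module.finrank_pos
  unfold TG
  have h1 : ∀ x ∈ (univ : Finset E), minpoly F x ∈ (Irr F m).filter (fun P => P.natDegree ∣ m) := by
    intro x _
    have hx : IsIntegral F x := Algebra.IsIntegral.isIntegral x
    rw [mem_filter, mem_Irr]
    refine ⟨⟨minpoly.monic hx, minpoly.irreducible hx, Nat.le_of_dvd hm0 (finrank_div x).2⟩,
      (finrank_div x).2⟩
  rw [← sum_fiberwise_of_maps_to h1]
  apply sum_congr rfl
  intro P hP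
  rw [mem_filter, mem_Irr] at hP
  obtain ⟨⟨hmon, hirr, _⟩, hdvd⟩ := hP
  have h2 : ∀ x ∈ univ.filter (fun x : E => minpoly F x = P),
      ψ (Algebra.trace F E (aeval x f)) = lamP ψ f P ^ (m / P.natDegree) := by
    intro x hx
    rw [mem_filter] at hx
    unfold lamP
    rw [trace_P x f, AddChar.map_nsmul_eq_pow, hx.2]
  rw [sum_congr rfl h2, sum_const, nsmul_eq_mul]
  congr 2
  have h3 : univ.filter (fun x : E => minpoly F x = P) = (P.rootSet E).toFinset := by
    ext x
    rw [mem_filter, Set.mem_toFinset, mem_rootSet]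
    constructor
    · rintro ⟨_, rfl⟩
      exact ⟨hmon.ne_zero, minpoly.aeval F x⟩
    · rintro ⟨_, h⟩
      exact ⟨mem_univ _, (minpoly.eq_of_irreducible_of_monic hirr h hmon).symm⟩
  have hsplit : (P.map (algebraMap F E)).Splits := by
    have h4 : P ∣ X ^ (Nat.card F) ^ m - X :=
      (hirr.natDegree_dvd_iff_dvd_X_pow_card_pow_sub_X).1 hdvd
    have h5 : (P.map (algebraMap F E)) ∣ (X ^ (Nat.card F) ^ m - X : E[X]) := by
      have := Polynomial.map_dvd (algebraMap F E) h4
      simpa using this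
    have hcard : (Nat.card F) ^ m = Fintype.card E := by
      rw [Nat.card_eq_fintype_card, Module.card_eq_pow_finrank (K := F) (V := E)]
    rw [hcard] at h5
    have h6 : (X ^ Fintype.card E - X : E[X]).Splits := by
      rw [splits_iff_card_roots, FiniteField.roots_X_pow_card_sub_X,
        FiniteField.X_pow_card_sub_X_natDegree_eq _ Fintype.one_lt_card]
      rfl
    exact h6.of_dvd (FiniteField.X_pow_card_sub_X_ne_zero _ Fintype.one_lt_card) h5
  rw [h3, Set.toFinset_card, card_rootSet_eq_natDegree (PerfectField.separable_of_irreducible hirr)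
    hsplit]

/-- vanishing in degree at least `deg f` -/
theorem AP_eq_zero {ψ : AddChar F ℂ} (hψ : ψ.IsPrimitive) {f : F[X]} (hk : 1 ≤ f.natDegree)
    (hkF : (f.natDegree : F) ≠ 0) (n : ℕ) (hn : f.natDegree ≤ n) : AG (lamP ψ f) n = 0 := by
  classical
  set k := f.natDegree with hkdef
  have key : ∀ (s : F) (h : F[X]), h ∈ Mon F n → h + C s * X ^ (n - k) ∈ Mon F n := by
    intro s h hh
    rw [mem_Mon] at hh ⊢
    obtain ⟨h1, h2, _⟩ := T_shift f hk hh.1 (by rw [hh.2]; exact hn) s
    rw [hh.2] at h1 h2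
    exact ⟨h1, h2⟩
  have hperm : ∀ s : F, ∑ h ∈ Mon F n, lamP ψ f h =
      ∑ h ∈ Mon F n, lamP ψ f (h + C s * X ^ (n - k)) := by
    intro s
    symm
    refine sum_bij' (fun h _ => h + C s * X ^ (n - k)) (fun h _ => h + C (-s) * X ^ (n - k))
      (fun h hh => key s h hh) (fun h hh => key (-s) h hh) ?_ ?_ ?_
    · intro h _
      simp
    · intro h _
      simp
    · intro h _
      rfl
  have hval : ∀ (s : F) (h : F[X]), h ∈ Mon F n → lamP ψ f (h + C s * X ^ (n - k)) =
      lamP ψ f h * ψ (s * (-(f.leadingCoeff * (k : F)))) := by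
    intro s h hh
    rw [mem_Mon] at hh
    obtain ⟨_, _, h3⟩ := T_shift f hk hh.1 (by rw [hh.2]; exact hn) s
    rw [hh.2] at h3
    unfold lamP
    rw [h3, ← AddChar.map_add_eq_mul]
    congr 1
    ring
  have h1 : (Fintype.card F : ℂ) * AG (lamP ψ f) n =
      ∑ s : F, ∑ h ∈ Mon F n, lamP ψ f (h + C s * X ^ (n - k)) := by
    unfold AG
    rw [← card_univ, ← nsmul_eq_mul, ← sum_const]
    exact sum_congr rfl fun s _ => hperm s
  have hf0 : f ≠ 0 := by
    intro h
    rw [hkdef, h, natDegree_zero] at hk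
    omega
  have h2 : ∑ s : F, ∑ h ∈ Mon F n, lamP ψ f (h + C s * X ^ (n - k)) = 0 := by
    rw [sum_comm]
    apply sum_eq_zero
    intro h hh
    rw [sum_congr rfl fun s _ => hval s h hh, ← mul_sum, AddChar.sum_mulShift _ hψ, if_neg,
      Nat.cast_zero, mul_zero]
    exact neg_ne_zero.2 (mul_ne_zero (leadingCoeff_ne_zero.2 hf0) hkF)
  rw [h2] at h1
  rcases mul_eq_zero.1 h1 with h | h
  · exfalso
    exact Fintype.card_ne_zero (α := F) (by exact_mod_cast h)
  · exact h

/-- the `L`-polynomial -/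
noncomputable def LP (ψ : AddChar F ℂ) (f : F[X]) : ℂ[X] :=
  ∑ n ∈ range f.natDegree, C (AG (lamP ψ f) n) * X ^ n

theorem LP_coeff {ψ : AddChar F ℂ} (hψ : ψ.IsPrimitive) {f : F[X]} (hk : 1 ≤ f.natDegree)
    (hkF : (f.natDegree : F) ≠ 0) (n : ℕ) : (LP ψ f).coeff n = AG (lamP ψ f) n := by
  rw [LP, finsetSum_coeff]
  simp_rw [coeff_C_mul_X_pow]
  by_cases hn : n < f.natDegree
  · rw [sum_eq_single n]
    · simp
    · intro m _ hm
      rw [if_neg (Ne.symm hm)]
    · intro h
      exact absurd (mem_range.2 hn) h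
  · rw [AP_eq_zero hψ hk hkF n (by omega)]
    apply sum_eq_zero
    intro m hm
    rw [mem_range] at hm
    rw [if_neg (by omega)]

theorem LP_zero {ψ : AddChar F ℂ} (hψ : ψ.IsPrimitive) {f : F[X]} (hk : 1 ≤ f.natDegree)
    (hkF : (f.natDegree : F) ≠ 0) : (LP ψ f).coeff 0 = 1 := by
  rw [LP_coeff hψ hk hkF, AG_zero (lamP_mult ψ f)]

theorem LP_natDegree {ψ : AddChar F ℂ} (hψ : ψ.IsPrimitive) {f : F[X]} (hk : 1 ≤ f.natDegree)
    (hkF : (f.natDegree : F) ≠ 0) : (LP ψ f).natDegree ≤ f.natDegree - 1 := by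
  rw [natDegree_le_iff_coeff_eq_zero]
  intro n hn
  rw [LP_coeff hψ hk hkF, AP_eq_zero hψ hk hkF n (by omega)]

theorem LP_HID {ψ : AddChar F ℂ} (hψ : ψ.IsPrimitive) {f : F[X]} (hk : 1 ≤ f.natDegree)
    (hkF : (f.natDegree : F) ≠ 0) : HID (LP ψ f) (TG (lamP ψ f)) := by
  intro n
  simp_rw [LP_coeff hψ hk hkF]
  exact n_mul_AG (lamP_mult ψ f) n

end Lam

end Pool.Agent.Y951.WP
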