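import Pool.Agent.Y951.WP.Core
import Pool.Agent.Y951.WP.Lam
import Pool.Agent.H498R2.KlMain

/-!
# Weil's bound for additive character sums of polynomials over prime fields (helper951)
-/

set_option autoImplicit false
set_option linter.all false

open Polynomial Finset
open Pool.Agent.H341R2.Sharp Pool.Agent.H498R2.Kl
open Pool.Agent.Y807.WB

namespace Pool.Agent.Y951.WP

section Count
variable (p : ℕ) [Fact p.Prime]

open Classical in
/-- the points with a given trace -/
noncomputable def NP {F : Type} [Field F] (E : Type) [Field E] [Fintype E] [Algebra F E]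
    (f : F[X]) (t : F) : Finset E :=
  univ.filter (fun x : E => Algebra.trace F E (aeval x f) = t)

open Classical in
theorem mem_NP {F : Type} [Field F] {E : Type} [Field E] [Fintype E] [Algebra F E]
    {f : F[X]} {t : F} {x : E} : x ∈ NP E f t ↔ Algebra.trace F E (aeval x f) = t := by
  unfold NP
  rw [mem_filter]
  exact and_iff_right (mem_univ _)

theorem count_bound (f : (ZMod p)[X]) (hf : ¬ p ∣ f.natDegree) :
    ∃ C0 N0 : ℕ, ∀ m : ℕ, N0 ≤ m → ∀ (E : Type) [Field E] [Fintype E] [Algebra (ZMod p) E],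
      Module.finrank (ZMod p) E = m → ∀ t : ZMod p,
      p * (NP E f t).card ≤ p ^ m + C0 * p ^ (m - m / 2) := by
  classical
  have hpp : p.Prime := Fact.out
  let k := AlgebraicClosure (ZMod p)
  let j : ZMod p →+* k := algebraMap (ZMod p) k
  have hj : Function.Injective j := j.injective
  haveI : CharP k p := charP_of_injective_algebraMap hj p
  have hfix : ∀ f : (ZMod p)[X], ∀ i, (f.map j).coeff i ^ p = (f.map j).coeff i := by
    intro f i
    rw [coeff_map, ← map_pow, ZMod.pow_card]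
  obtain ⟨C0, N0, hcore⟩ := coreP k p (f.map j) 1 (hfix _) (by
      intro i
      rw [coeff_one]
      split_ifs
      · rw [one_pow]
      · rw [zero_pow hpp.ne_zero]) one_ne_zero
    (no_rat p (f.map j) (by rwa [natDegree_map]))
  refine ⟨C0, N0, fun m hm E _ _ _ hE t => ?_⟩
  haveI : Module.Finite (ZMod p) E := Module.Finite.of_finite
  haveI : Algebra.IsAlgebraic (ZMod p) E := Algebra.IsAlgebraic.of_finite _ _
  let ι : E →ₐ[ZMod p] k := IsAlgClosed.lift
  have hι : Function.Injective ι := ι.toRingHom.injective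
  have hcard : Fintype.card E = p ^ m := by
    rw [Module.card_eq_pow_finrank (K := ZMod p) (V := E), ZMod.card, hE]
  have key := hcore m hm (j t) (by rw [← map_pow, ZMod.pow_card]) ((NP E f t).image ι) (by
    intro z hz
    rw [mem_image] at hz
    obtain ⟨x, hx, rfl⟩ := hz
    rw [mem_NP] at hx
    have hcomm : ∀ s : ZMod p, ι (algebraMap (ZMod p) E s) = j s := fun s => ι.commutes s
    refine ⟨?_, ?_, ?_⟩
    · rw [← map_pow, ← hcard, FiniteField.pow_card]
    · rw [eval_one]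
      exact one_ne_zero
    · have h1 : (f.map j).eval (ι x) / (1 : k[X]).eval (ι x) = ι (aeval x f) := by
        rw [eval_one, div_one, eval_map_algebraMap, aeval_algHom_apply]
      rw [h1, ← hx]
      have h2 := FiniteField.algebraMap_trace_eq_sum_pow (ZMod p) E (aeval x f)
      rw [← hcomm, h2, map_sum, hE]
      apply sum_congr rfl
      intro i _
      rw [map_pow, Nat.card_zmod])
  rwa [card_image_of_injective _ hι] at key

end Count

section Sums
variable (p : ℕ) [Fact p.Prime]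

theorem sum_TP (E : Type) [Field E] [Fintype E] [DecidableEq E] [Algebra (ZMod p) E]
    {ψ : AddChar (ZMod p) ℂ} (hψ : ψ.IsPrimitive) (f : (ZMod p)[X]) :
    ∑ s ∈ univ.filter (fun s : ZMod p => s ≠ 0), TG (lamP ψ (C s * f)) (Module.finrank (ZMod p) E) =
      (p : ℂ) * (NP E f 0).card - (Fintype.card E : ℂ) := by
  classical
  have h1 : ∀ s : ZMod p, TG (lamP ψ (C s * f)) (Module.finrank (ZMod p) E) =
      ∑ x : E, ψ (s * Algebra.trace (ZMod p) E (aeval x f)) := by
    intro s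
    rw [TP_eq_sum (E := E)]
    apply sum_congr rfl
    intro x _
    congr 1
    rw [map_mul, aeval_C, ← Algebra.smul_def, map_smul, smul_eq_mul]
  have h2 : ∑ s : ZMod p, TG (lamP ψ (C s * f)) (Module.finrank (ZMod p) E) =
      (p : ℂ) * (NP E f 0).card := by
    simp_rw [h1]
    rw [sum_comm]
    simp_rw [AddChar.sum_mulShift _ hψ]
    have e2 : ((NP E f 0).card : ℂ) = ∑ x : E, if (Algebra.trace (ZMod p) E (aeval x f) = 0)
        then (1 : ℂ) else 0 := by
      rw [← sum_filter, sum_const, nsmul_eq_mul, mul_one]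
      congr 2
      ext x
      rw [mem_NP, mem_filter]
      exact (and_iff_right (mem_univ _)).symm
    rw [e2, mul_sum]
    apply sum_congr rfl
    intro x _
    rw [ZMod.card]
    by_cases h' : Algebra.trace (ZMod p) E (aeval x f) = 0
    · rw [if_pos h', if_pos h', mul_one]
    · rw [if_neg h', if_neg h', mul_zero, Nat.cast_zero]
  have h3 : TG (lamP ψ (C 0 * f)) (Module.finrank (ZMod p) E) = (Fintype.card E : ℂ) := by
    rw [h1 0]
    simp
  have h4 : ∑ s : ZMod p, TG (lamP ψ (C s * f)) (Module.finrank (ZMod p) E) =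
      ∑ s ∈ univ.filter (fun s : ZMod p => s ≠ 0), TG (lamP ψ (C s * f)) (Module.finrank (ZMod p) E) +
        TG (lamP ψ (C 0 * f)) (Module.finrank (ZMod p) E) := by
    rw [← sum_filter_add_sum_filter_not univ (fun s : ZMod p => s ≠ 0)]
    congr 1
    have : (univ.filter fun s : ZMod p => ¬ s ≠ 0) = {0} := by
      ext s
      simp
    rw [this, sum_singleton]
  rw [h4, h3] at h2
  rw [← h2]
  ring

theorem count_two_sided (f : (ZMod p)[X]) (hf : ¬ p ∣ f.natDegree) :
    ∃ C1 : ℝ, 0 ≤ C1 ∧ ∀ m : ℕ, 1 ≤ m → ∀ (E : Type) [Field E] [Fintype E] [DecidableEq E] [Algebra (ZMod p) E],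
      Module.finrank (ZMod p) E = m →
      |(p : ℝ) * (NP E f 0).card - (Fintype.card E : ℝ)| ≤ C1 * (Real.sqrt p) ^ m := by
  classical
  have hpp : p.Prime := Fact.out
  obtain ⟨C0, N0, hcb⟩ := count_bound p f hf
  have hp1 : (1 : ℝ) ≤ p := by exact_mod_cast hpp.one_le
  have hs1 : 1 ≤ Real.sqrt p := by rwa [Real.one_le_sqrt]
  have hss : Real.sqrt p * Real.sqrt p = p := Real.mul_self_sqrt (by positivity)
  refine ⟨(p : ℝ) * (p : ℝ) ^ N0 + p * C0 * Real.sqrt p, by positivity, ?_⟩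
  intro m hm E _ _ _ _ hE
  have hcard : Fintype.card E = p ^ m := by
    rw [Module.card_eq_pow_finrank (K := ZMod p) (V := E), ZMod.card, hE]
  have hNG : (NP E f 0).card ≤ p ^ m := by
    rw [← hcard]
    exact card_le_univ _
  rw [hcard]
  have hsq : Real.sqrt p ^ m * Real.sqrt p ^ m = (p : ℝ) ^ m := by
    rw [← mul_pow, hss]
  have hsm : 1 ≤ Real.sqrt p ^ m := one_le_pow₀ hs1
  push_cast
  by_cases hmN : N0 ≤ m
  · -- large `m`
    have hb : ∀ t : ZMod p, (p : ℝ) * (NP E f t).card ≤ (p : ℝ) ^ m + C0 * (p : ℝ) ^ (m - m / 2) := by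
      intro t
      exact_mod_cast hcb m hmN E hE t
    have hsum : ∑ t : ZMod p, ((NP E f t).card : ℝ) = (p : ℝ) ^ m := by
      have h1 : Fintype.card E = ∑ t : ZMod p, (NP E f t).card := by
        rw [← card_univ, card_eq_sum_card_fiberwise (f := fun x => Algebra.trace (ZMod p) E (aeval x f))
          (t := univ) (fun _ _ => mem_univ _)]
        refine sum_congr rfl fun t _ => ?_
        congr 1
        ext x
        rw [mem_NP, mem_filter]
        exact and_iff_right (mem_univ _)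
      rw [hcard] at h1
      exact_mod_cast h1.symm
    have hpw : (p : ℝ) ^ (m - m / 2) ≤ Real.sqrt p * Real.sqrt p ^ m := by
      have h1 : (p : ℝ) ^ (m - m / 2) = Real.sqrt p ^ (2 * (m - m / 2)) := by
        rw [pow_mul, sq, hss]
      rw [h1, ← pow_succ']
      exact pow_le_pow_right₀ hs1 (by omega)
    have hupper : (p : ℝ) * (NP E f 0).card - (p : ℝ) ^ m ≤ C0 * (p : ℝ) ^ (m - m / 2) := by
      have h1 := hb 0
      linarith
    have hlower : -(((p : ℝ) - 1) * (C0 * (p : ℝ) ^ (m - m / 2))) ≤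
        (p : ℝ) * (NP E f 0).card - (p : ℝ) ^ m := by
      have h1 : ∑ t ∈ univ.erase (0 : ZMod p), (p : ℝ) * ((NP E f t).card : ℝ) ≤
          ((p : ℝ) - 1) * ((p : ℝ) ^ m + C0 * (p : ℝ) ^ (m - m / 2)) := by
        refine (sum_le_card_nsmul _ _ _ fun t _ => hb t).trans ?_
        rw [card_erase_of_mem (mem_univ _), card_univ, ZMod.card, nsmul_eq_mul,
          Nat.cast_sub hpp.one_le, Nat.cast_one]
      have h2 : (p : ℝ) * (NP E f 0).card + ∑ t ∈ univ.erase (0 : ZMod p), (p : ℝ) * ((NP E f t).card : ℝ) =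
          p * (p : ℝ) ^ m := by
        rw [add_sum_erase univ (fun t => (p : ℝ) * ((NP E f t).card : ℝ)) (mem_univ (0 : ZMod p)),
          ← mul_sum, hsum]
      nlinarith
    have h5 : 0 ≤ C0 * (p : ℝ) ^ (m - m / 2) := by positivity
    have h6 : |(p : ℝ) * (NP E f 0).card - (p : ℝ) ^ m| ≤ p * (C0 * (p : ℝ) ^ (m - m / 2)) := by
      rw [abs_le]
      constructor
      · nlinarith
      · nlinarith
    refine h6.trans ?_
    have h7 : C0 * (p : ℝ) ^ (m - m / 2) ≤ C0 * (Real.sqrt p * Real.sqrt p ^ m) :=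
      mul_le_mul_of_nonneg_left hpw (Nat.cast_nonneg _)
    have h8 : (p : ℝ) * (C0 * (p : ℝ) ^ (m - m / 2)) ≤ p * (C0 * (Real.sqrt p * Real.sqrt p ^ m)) :=
      mul_le_mul_of_nonneg_left h7 (by linarith)
    have h10 : (0 : ℝ) ≤ (p : ℝ) * (p : ℝ) ^ N0 * Real.sqrt p ^ m := by positivity
    calc _ ≤ _ := h8
      _ ≤ _ := by
        have : (p : ℝ) * (C0 * (Real.sqrt p * Real.sqrt p ^ m)) = p * C0 * Real.sqrt p * Real.sqrt p ^ m := by
          ring
        rw [this, add_mul]
        linarith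
  · -- small `m`
    push Not at hmN
    have h1 : |(p : ℝ) * (NP E f 0).card - (p : ℝ) ^ m| ≤ p * (p : ℝ) ^ m := by
      have h2 : ((NP E f 0).card : ℝ) ≤ (p : ℝ) ^ m := by exact_mod_cast hNG
      have h3 : (0 : ℝ) ≤ (NP E f 0).card := by positivity
      have h4 : (0 : ℝ) ≤ (p : ℝ) ^ m := by positivity
      rw [abs_le]
      constructor
      · nlinarith
      · nlinarith
    have h3 : (p : ℝ) ^ m ≤ (p : ℝ) ^ N0 := pow_le_pow_right₀ hp1 hmN.le
    have h4 : (p : ℝ) * (p : ℝ) ^ m ≤ (p : ℝ) * (p : ℝ) ^ N0 * Real.sqrt p ^ m := by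
      have h5 : (0 : ℝ) ≤ (p : ℝ) * (p : ℝ) ^ N0 := by positivity
      calc (p : ℝ) * (p : ℝ) ^ m ≤ p * (p : ℝ) ^ N0 := by nlinarith
        _ ≤ _ := le_mul_of_one_le_right h5 hsm
    have h6 : (0 : ℝ) ≤ p * C0 * Real.sqrt p * Real.sqrt p ^ m := by positivity
    rw [add_mul]
    linarith

theorem sum_TG_bound (f : (ZMod p)[X]) (hf : ¬ p ∣ f.natDegree)
    {ψ : AddChar (ZMod p) ℂ} (hψ : ψ.IsPrimitive) :
    ∃ C1 : ℝ, 0 ≤ C1 ∧ ∀ m : ℕ, 1 ≤ m →
    ‖∑ s ∈ univ.filter (fun s : ZMod p => s ≠ 0), TG (lamP ψ (C s * f)) m‖ ≤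
      C1 * (Real.sqrt p) ^ m := by
  classical
  obtain ⟨C1, hC1, h⟩ := count_two_sided p f hf
  refine ⟨C1, hC1, fun m hm => ?_⟩
  obtain ⟨E, _, _, _, hfr⟩ : ∃ (E : Type) (_ : Field E) (_ : Fintype E) (_ : Algebra (ZMod p) E),
      Module.finrank (ZMod p) E = m :=
    ⟨GaloisField p m, inferInstance, Fintype.ofFinite _, inferInstance, GaloisField.finrank p (by omega)⟩
  have h1 := sum_TP p E hψ f
  rw [hfr] at h1
  rw [h1]
  have h2 := h m hm E hfr
  rw [← Real.norm_eq_abs, ← Complex.norm_real] at h2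
  push_cast at h2
  exact h2

/-- **Weil's bound** for polynomials of degree prime to `p`. -/
theorem weil_le (f : (ZMod p)[X]) (hf : ¬ p ∣ f.natDegree)
    {ψ : AddChar (ZMod p) ℂ} (hψ : ψ.IsPrimitive) :
    ‖∑ x : ZMod p, ψ (f.eval x)‖ ≤ ((f.natDegree - 1 : ℕ) : ℝ) * Real.sqrt p := by
  classical
  have hpp : p.Prime := Fact.out
  have hk : 1 ≤ f.natDegree := by
    rcases Nat.eq_zero_or_pos f.natDegree with h | h
    · rw [h] at hf
      exact absurd (dvd_zero p) hf
    · exact h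
  have hkF : (f.natDegree : ZMod p) ≠ 0 := by
    rw [Ne, ZMod.natCast_eq_zero_iff]
    exact hf
  have hq0 : 0 < Real.sqrt p := Real.sqrt_pos.2 (by exact_mod_cast hpp.pos)
  set s := univ.filter (fun s : ZMod p => s ≠ 0) with hs
  set A : ℂ[X] := ∏ t ∈ s, LP ψ (C t * f) with hA
  have ht : ∀ t ∈ s, (C t * f).natDegree = f.natDegree := by
    intro t ht
    rw [hs, mem_filter] at ht
    exact natDegree_C_mul ht.2
  have ht1 : ∀ t ∈ s, 1 ≤ (C t * f).natDegree := fun t hts => by rw [ht t hts]; exact hk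
  have ht2 : ∀ t ∈ s, ((C t * f).natDegree : ZMod p) ≠ 0 := fun t hts => by
    rw [ht t hts]; exact hkF
  have hid : HID A (fun m => ∑ t ∈ s, TG (lamP ψ (C t * f)) m) :=
    HID.prod s _ _ fun t hts => LP_HID hψ (ht1 t hts) (ht2 t hts)
  have hA0 : A.coeff 0 = 1 := by
    rw [hA, coeff_zero_prod]
    exact prod_eq_one fun t hts => LP_zero hψ (ht1 t hts) (ht2 t hts)
  obtain ⟨C1, hC1, hbound⟩ := sum_TG_bound p f hf hψ
  have hroot : ∀ z : ℂ, (LP ψ f).eval z = 0 → 1 ≤ Real.sqrt p * ‖z‖ := by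
    intro z hz
    apply root_norm A hA0 (fun m => ∑ t ∈ s, TG (lamP ψ (C t * f)) m)
      (Real.sqrt p) C1 hq0 hC1
    · intro m hm
      exact hbound m hm
    · exact hid
    · rw [hA, eval_prod]
      apply prod_eq_zero (i := (1 : ZMod p))
      · rw [hs, mem_filter]
        exact ⟨mem_univ _, one_ne_zero⟩
      · rw [C_1, one_mul]
        exact hz
  have h1 := coeff_one_le (LP ψ f) (LP_zero hψ hk hkF) _ hq0 hroot (f.natDegree - 1)
    (LP_natDegree hψ hk hkF)
  have h2 : (LP ψ f).coeff 1 = ∑ x : ZMod p, ψ (f.eval x) := by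
    have h3 := LP_HID hψ hk hkF 1
    rw [Icc_self, sum_singleton, Nat.sub_self, LP_zero hψ hk hkF, one_mul, Nat.cast_one,
      one_mul] at h3
    rw [h3]
    have h4 := TP_eq_sum (F := ZMod p) (E := ZMod p) ψ f
    rw [Module.finrank_self] at h4
    rw [h4]
    apply sum_congr rfl
    intro x _
    simp
  rw [h2] at h1
  exact h1

end Sums

end Pool.Agent.Y951.WP
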