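import Pool.Agent.Y807.WB.Core

/-!
# Counting points of given trace for `num / den` when `y ^ p - y = num / den` has no rational
solution (helper951; the proof is that of helper807's `core`, with the local hypothesis on the
pole replaced by the absence of rational solutions)
-/

set_option autoImplicit false
set_option linter.all false
set_option linter.overlappingInstances false

open Module FF Pool.Agent.H525R3.FFp Pool.Agent.W132.AG Polynomial
open Pool.Agent.W493.MX Pool.Agent.Y807.WB

namespace Pool.Agent.Y951.WP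

/-- a polynomial of degree prime to `p` is not of the form `y ^ p - y` -/
theorem no_rat {k : Type} [Field k] (p : ℕ) [Fact p.Prime] (f : k[X])
    (hf : ¬ p ∣ f.natDegree) (y : RatFunc k)
    (hy : cH k (RatFunc k) 1 * (y ^ p - y) = cH k (RatFunc k) f) : False := by
  have hpp : p.Prime := Fact.out
  have h1 : ∀ g : k[X], cH k (RatFunc k) g = algebraMap k[X] (RatFunc k) g := fun g => rfl
  rw [h1, h1, map_one, one_mul] at hy
  have hint : IsIntegral k[X] y := by
    refine ⟨X ^ p - (X + C f), ?_, ?_⟩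
    · apply monic_X_pow_sub
      refine (degree_X_add_C f).le.trans_lt ?_
      exact_mod_cast hpp.one_lt
    · simp only [eval₂_sub, eval₂_pow, eval₂_X, eval₂_add, eval₂_C]
      rw [← hy]
      ring
  obtain ⟨g, rfl⟩ := IsIntegrallyClosed.isIntegral_iff.1 hint
  rw [← map_pow, ← map_sub] at hy
  have h2 : g ^ p - g = f := (IsFractionRing.injective k[X] (RatFunc k)) hy
  rcases Nat.eq_zero_or_pos g.natDegree with h0 | h0
  · apply hf
    have h3 : f.natDegree = 0 := by
      rw [← h2]
      have h4 : (g ^ p).natDegree = 0 := by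
        rw [natDegree_pow, h0, mul_zero]
      have h5 := natDegree_sub_le (g ^ p) g
      rw [h4, h0, max_self] at h5
      omega
    rw [h3]
    exact dvd_zero p
  · apply hf
    rw [← h2, natDegree_sub_eq_left_of_natDegree_lt, natDegree_pow]
    · exact dvd_mul_right _ _
    · rw [natDegree_pow]
      have := hpp.two_le
      nlinarith

theorem coreP (k : Type) [Field k] [IsAlgClosed k] (p : ℕ) [Fact p.Prime] [CharP k p]
    (num den : k[X]) (hnum : ∀ i, num.coeff i ^ p = num.coeff i)
    (hdenc : ∀ i, den.coeff i ^ p = den.coeff i) (hden0 : den ≠ 0)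
    (hnr : ∀ y : RatFunc k, cH k (RatFunc k) den * (y ^ p - y) = cH k (RatFunc k) num → False) :
    ∃ C0 N0 : ℕ, ∀ m : ℕ, N0 ≤ m → ∀ t : k, t ^ p = t → ∀ T : Finset k,
      (∀ c ∈ T, c ^ p ^ m = c ∧ den.eval c ≠ 0 ∧
        ∑ i ∈ Finset.range m, (num.eval c / den.eval c) ^ p ^ i = t) →
      p * T.card ≤ p ^ m + C0 * p ^ (m - m / 2) := by
  classical
  have hpp : p.Prime := Fact.out
  obtain ⟨E, _, _, _, _, _, _, _, Φ, y, hΦ, hΦf, hy, huniq⟩ := exists_ext k p num den hnum hdenc hden0
  haveI : Fintype (E ≃ₐ[RatFunc k] E) := Fintype.ofFinite _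
  haveI hcharE : CharP E p := charP_of_injective_algebraMap (algebraMap k E).injective p
  obtain ⟨C0, N0, hA'⟩ := s_A k E p
  set g := Fintype.card (E ≃ₐ[RatFunc k] E) with hg
  have hgr : finrank (RatFunc k) E = g := by
    rw [hg, ← Nat.card_eq_fintype_card, IsGalois.card_aut_eq_finrank]
  refine ⟨C0, N0, fun m hm t ht T hT => ?_⟩
  have hcden0 : cH k E den ≠ 0 := by
    intro h
    exact hden0 (cH_inj k E (by rw [h, map_zero]))
  -- a field automorphism fixing `k(x)`'s polynomials `num`, `den` translates `y`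
  have htrans : ∀ ψ : E ≃+* E, ψ (cH k E num) = cH k E num → ψ (cH k E den) = cH k E den →
      ∃ j : ℕ, ψ y = y + (j : E) := by
    intro ψ h1 h2
    have h3 : cH k E den * ((ψ y) ^ p - ψ y) = cH k E den * (y ^ p - y) := by
      have := congrArg ψ hy
      rw [map_mul, map_sub, map_pow, h1, h2] at this
      rw [this, hy]
    have h4 := mul_left_cancel₀ hcden0 h3
    have h5 : (ψ y - y) ^ p = ψ y - y := by
      rw [sub_pow_char]
      linear_combination h4
    obtain ⟨j, hj⟩ := fix_nat p h5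
    exact ⟨j, by rw [← hj]; ring⟩
  have hσfix : ∀ (σ : E ≃ₐ[RatFunc k] E) (f : k[X]), σ (cH k E f) = cH k E f := by
    intro σ f
    unfold cH
    rw [RingHom.comp_apply, AlgEquiv.commutes]
  have hσt : ∀ σ : E ≃ₐ[RatFunc k] E, ∃ j : ℕ, σ y = y + (j : E) := by
    intro σ
    exact htrans σ.toRingEquiv (hσfix σ num) (hσfix σ den)
  have hσc : ∀ (σ : E ≃ₐ[RatFunc k] E) (c : k), σ (algebraMap k E c) = algebraMap k E c :=
    fun σ c => aut_const σ c
  -- surjectivity
  have hsurj : ∀ j : ℕ, ∃ σ : E ≃ₐ[RatFunc k] E, σ y = y + (j : E) := by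
    have h0 : ∃ σ0 : E ≃ₐ[RatFunc k] E, σ0 y ≠ y := by
      by_contra hn
      push Not at hn
      obtain ⟨y0, hy0⟩ := (IsGalois.mem_range_algebraMap_iff_fixed (F := RatFunc k) (E := E) y).2 hn
      refine hnr y0 ?_
      apply (algebraMap (RatFunc k) E).injective
      rw [map_mul, map_sub, map_pow, hy0]
      exact hy
    obtain ⟨σ0, hσ0⟩ := h0
    obtain ⟨j0, hj0⟩ := hσt σ0
    have hj0' : (j0 : E) ≠ 0 := by
      intro h
      rw [h, add_zero] at hj0
      exact hσ0 hj0
    have hpow : ∀ i : ℕ, (σ0 ^ i) y = y + ((i * j0 : ℕ) : E) := by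
      intro i
      induction i with
      | zero => simp
      | succ i ih =>
        rw [pow_succ, AlgEquiv.mul_apply, hj0, map_add, ih, map_natCast]
        push_cast
        ring
    intro j
    have hz : (j0 : ZMod p) ≠ 0 := by
      intro h
      rw [ZMod.natCast_eq_zero_iff] at h
      apply hj0'
      rw [CharP.cast_eq_zero_iff E p]
      exact h
    refine ⟨σ0 ^ ((j : ZMod p) * (j0 : ZMod p)⁻¹).val, ?_⟩
    rw [hpow]
    congr 1
    rw [CharP.natCast_eq_natCast E p, ← ZMod.natCast_eq_natCast_iff]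
    rw [Nat.cast_mul, ZMod.natCast_zmod_val]
    field_simp
  have hpg : p ≤ g := by
    choose s hs using hsurj
    have hinj : Function.Injective (fun j : Fin p => s j.1) := by
      intro i j hij
      have h1 : y + ((i.1 : ℕ) : E) = y + ((j.1 : ℕ) : E) := by
        rw [← hs i.1, ← hs j.1]
        have h2 : s i.1 = s j.1 := hij
        rw [h2]
      have h2 := add_left_cancel h1
      rw [CharP.natCast_eq_natCast E p] at h2
      exact Fin.ext (Nat.ModEq.eq_of_lt_of_lt h2 i.2 j.2)
    have := Fintype.card_le_of_injective _ hinj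
    rwa [Fintype.card_fin] at this
  -- the power of the Frobenius lift
  set Q := p ^ m with hQdef
  set Ψ : E ≃+* E := Φ ^ m with hΨ
  have hΨc : ∀ c : k, Ψ (algebraMap k E c) = algebraMap k E (c ^ Q) := pow_lift p Φ hΦ m
  have hΨf : ∀ f : k[X], (∀ i, f.coeff i ^ p = f.coeff i) → Ψ (cH k E f) = cH k E f :=
    fun f hf => pow_fix Φ _ (hΦf f hf) m
  have hΨX : Ψ (cH k E X) = cH k E X := by
    apply hΨf
    intro i
    rw [coeff_X]
    split_ifs
    · rw [one_pow]
    · rw [zero_pow hpp.ne_zero]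
  obtain ⟨b, hb⟩ := htrans Ψ (hΨf num hnum) (hΨf den hdenc)
  -- the automorphism attached to `t`
  obtain ⟨jt, hjt⟩ : ∃ jt : ℕ, t = (jt : k) := fix_nat p ht
  obtain ⟨j1, hj1⟩ : ∃ j1 : ℕ, (j1 : E) = (jt : E) - (b : E) := by
    have h1 : ((jt : E) - (b : E)) ^ p = (jt : E) - (b : E) := by
      rw [sub_pow_char, ← Nat.cast_pow, ← Nat.cast_pow]
      congr 1
      · rw [CharP.natCast_eq_natCast E p, ← ZMod.natCast_eq_natCast_iff]
        push_cast
        exact ZMod.pow_card _
      · rw [CharP.natCast_eq_natCast E p, ← ZMod.natCast_eq_natCast_iff]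
        push_cast
        exact ZMod.pow_card _
    obtain ⟨j, hj⟩ := fix_nat p h1
    exact ⟨j, hj.symm⟩
  obtain ⟨σt, hσt1⟩ := hsurj j1
  -- zeros
  have hXe : ∀ c : k, cH k E (X - C c) = algebraMap (RatFunc k) E (RatFunc.X - algebraMap k (RatFunc k) c) := by
    intro c
    rw [← mxb_cE]
    rfl
  have hzero : ∀ c : k, ∃ w0 : Place k (RatFunc k), ∀ P : Place k E,
      0 < P.ord (cH k E (X - C c)) ↔ und (RatFunc k) P = w0 := by
    intro c
    obtain ⟨w0, hw0⟩ := exists_zero_gen (k := k) (x := (RatFunc.X : RatFunc k)) RatFunc.adjoin_X c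
    refine ⟨w0, fun P => ?_⟩
    have hov := over_und (F := RatFunc k) P
    have hpos : (0 : ℤ) < eI (RatFunc k) P := by exact_mod_cast hov.1
    rw [hXe, hov.2]
    constructor
    · intro h
      exact mxb_unique c ((mul_pos_iff_of_pos_left hpos).1 h) hw0
    · intro h
      rw [h]
      exact mul_pos hpos hw0
  choose w0 hw0 using hzero
  set Fib : k → Finset (Place k E) := fun c => fibS E (w0 c) with hFib
  have hmemFib : ∀ c P, P ∈ Fib c ↔ 0 < P.ord (cH k E (X - C c)) := by
    intro c P
    rw [hw0 c P, hFib]; exact mem_fibS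
  have hgpos : 0 < g := Fintype.card_pos
  have hne : ∀ c ∈ T, (Fib c).Nonempty := by
    intro c _
    by_contra hemp
    rw [Finset.not_nonempty_iff_eq_empty] at hemp
    have := sum_fibS (k := k) (E := E) (w0 c)
    rw [show fibS E (w0 c) = ∅ from hemp, Finset.sum_empty] at this
    have h1 : 0 < finrank (RatFunc k) E := by rw [hgr]; exact hgpos
    have h2 : 0 < (w0 c).deg := deg_pos _
    have := Nat.mul_pos h1 h2
    omega
  -- trivial stabiliser
  have hstab : ∀ (P : Place k E) (c : k), den.eval c ≠ 0 → 0 < P.ord (cH k E (X - C c)) →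
      ∀ σ : E ≃ₐ[RatFunc k] E, Stb P σ → σ = 1 := by
    intro P c hdc hPc σ hσ
    have hyr := reg_y p hy P c hPc hdc
    obtain ⟨j, hj⟩ := hσt σ
    have h1 := (Stb.red hσ hyr).2
    have hje : (j : E) = algebraMap k E (j : k) := by rw [map_natCast]
    rw [hj, hje, P.red_add hyr (P.reg_const _), red_const] at h1
    have h2 : algebraMap k P.RF (j : k) = 0 := by
      have := congrArg (fun z => z - P.red y) h1
      simpa using this
    have h3 : (j : k) = 0 := (map_eq_zero_iff _ (algebraMap k P.RF).injective).1 h2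
    apply huniq
    rw [hj, hje, h3, map_zero, add_zero]
    rfl
  have hFibc : ∀ c ∈ T, (Fib c).card = g := by
    intro c hc
    obtain ⟨P, hP⟩ := hne c hc
    have hPc := (hmemFib c P).1 hP
    obtain ⟨h1, h2⟩ := s_G2 k (RatFunc k) E P
    have hone : Nat.card {σ : E ≃ₐ[RatFunc k] E // Stb P σ} = 1 := by
      rw [Nat.card_eq_one_iff_unique]
      refine ⟨⟨fun a b => ?_⟩, ⟨⟨1, Stb.one P⟩⟩⟩
      apply Subtype.ext
      rw [hstab P c (hT c hc).2.1 hPc a.1 a.2, hstab P c (hT c hc).2.1 hPc b.1 b.2]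
    rw [hone] at h1
    rw [← h1, mul_one, hgr] at h2
    rw [← h2]
    congr 1
    rw [hFib, (hw0 c P).1 hPc]
  have hdisj : ∀ c ∈ T, ∀ c' ∈ T, c ≠ c' → Disjoint (Fib c) (Fib c') := by
    intro c _ c' _ hcc
    rw [Finset.disjoint_left]
    intro P hP hP'
    rw [hmemFib] at hP hP'
    have h1 := (red_cH P c hP X).2
    have h2 := (red_cH P c' hP' X).2
    rw [h1, eval_X, eval_X] at h2
    exact hcc (red_const_inj P h2)
  set Ω := T.biUnion Fib with hΩ
  have hΩc : Ω.card = T.card * g := by
    rw [hΩ, Finset.card_biUnion hdisj, Finset.sum_congr rfl hFibc, Finset.sum_const, smul_eq_mul]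
  have hF : ∀ P ∈ Ω, FrobAt Q (Ψ * σt.toRingEquiv) P := by
    intro P hP
    rw [hΩ, Finset.mem_biUnion] at hP
    obtain ⟨c, hc, hPc⟩ := hP
    have hPc' := (hmemFib c P).1 hPc
    obtain ⟨hcA, hdc, htr⟩ := hT c hc
    have hψ : ∀ c : k, ∃ c' : k, Ψ (algebraMap k E c) = algebraMap k E c' := fun c => ⟨_, hΨc c⟩
    set P' := compR P Ψ hψ with hP'
    have h1 : 0 < P'.ord (cH k E (X - C c)) := by
      rw [hP', compR_ord, cH_X_sub_C, map_sub, hΨX, hΨc, hcA, ← cH_X_sub_C]
      exact hPc'
    have h2 : und (RatFunc k) P = und (RatFunc k) P' := by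
      rw [(hw0 c P).1 hPc', (hw0 c P').1 h1]
    obtain ⟨τ, hτ⟩ := s_G1 k (RatFunc k) E P P' h2
    have h3 : ∀ z, P.ord (Ψ z) = P.ord (τ z) := hτ
    have hfr : FrobAt Q (Ψ * (τ⁻¹ : E ≃ₐ[RatFunc k] E).toRingEquiv) P := by
      apply frobAt_of_ord
      · intro c
        rw [RingAut.mul_apply]
        have : (τ⁻¹ : E ≃ₐ[RatFunc k] E).toRingEquiv (algebraMap k E c) = algebraMap k E c := aut_const _ c
        rw [this, hΨc]
      · intro f
        rw [RingAut.mul_apply, h3]
        have : τ ((τ⁻¹ : E ≃ₐ[RatFunc k] E).toRingEquiv f) = f := by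
          change τ ((τ⁻¹ : E ≃ₐ[RatFunc k] E) f) = f
          rw [← AlgEquiv.mul_apply, mul_inv_cancel, AlgEquiv.one_apply]
        rw [this]
    have hyr := reg_y p hy P c hPc' hdc
    obtain ⟨y0, hy0⟩ := exists_const P (P.red y)
    obtain ⟨a, ha⟩ := hσt τ⁻¹
    -- the residue of `y`
    have hfe : y0 ^ p - y0 = num.eval c / den.eval c := by
      have e1 := red_cH P c hPc' num
      have e2 := red_cH P c hPc' den
      have e3 : P.Reg (y ^ p) := reg_pow' P hyr p
      have e4 : P.red (y ^ p) = P.red y ^ p := by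
        have := reg_sum P ({()} : Finset Unit) (fun _ => y ^ p) (fun _ _ => e3)
        exact P.red_pow hyr p
      have e5 : P.Reg (y ^ p - y) := by
        rw [sub_eq_add_neg]
        exact P.reg_add e3 (P.reg_neg hyr)
      have e6 := congrArg P.red hy
      rw [P.red_mul e2.1 e5, e1.2, e2.2, P.red_sub e3 hyr, e4, hy0, ← map_pow, ← map_sub, ← map_mul] at e6
      have e7 := red_const_inj P e6
      rw [eq_div_iff hdc, mul_comm]
      exact e7
    have htr' : y0 ^ Q - y0 = t := by
      rw [← htr]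
      exact pow_sub_eq_sum p y0 _ hfe m
    have h4 := (hfr y hyr).2
    have h5 : (Ψ * (τ⁻¹ : E ≃ₐ[RatFunc k] E).toRingEquiv) y = y + algebraMap k E ((b : k) + (a : k)) := by
      rw [RingAut.mul_apply]
      have e1 : (τ⁻¹ : E ≃ₐ[RatFunc k] E).toRingEquiv y = y + (a : E) := ha
      rw [e1, map_add, hb, map_natCast, map_add, map_natCast, map_natCast]
      ring
    rw [h5, P.red_add hyr (P.reg_const _), red_const, hy0, ← map_add, ← map_pow] at h4
    have h6 := red_const_inj P h4
    have h7 : (b : k) + (a : k) = (jt : k) := by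
      rw [← hjt, ← htr', ← h6]
      ring
    have h8 : τ⁻¹ = σt := by
      apply huniq
      rw [ha, hσt1, hj1]
      congr 1
      have := congrArg (algebraMap k E) h7
      rw [map_add, map_natCast, map_natCast, map_natCast] at this
      rw [← this]
      ring
    rw [← h8]
    exact hfr
  have hfinal := hA' m hm (Ψ * σt.toRingEquiv) (by
    intro c
    rw [RingAut.mul_apply]
    have : σt.toRingEquiv (algebraMap k E c) = algebraMap k E c := aut_const _ c
    rw [this, hΨc]) Ω hF
  rw [hΩc] at hfinal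
  calc p * T.card ≤ g * T.card := Nat.mul_le_mul_right _ hpg
    _ = T.card * g := mul_comm _ _
    _ ≤ _ := hfinal

end Pool.Agent.Y951.WP
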